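import Pool.Agent.H177Z.MP.St

set_option autoImplicit false

/-! A nerve lemma for upper semicontinuous families of convex sets. -/

namespace Pool.Agent.H325Z.MP

open Set Topology Pool.Agent.H177Z.MP

lemma step {ι : Type} (C : ι → Set Vx) (Good : Set ι → Prop) (X : Set Vx)
    (hC : ∀ i, Convex ℝ (C i))
    (hG : ∀ s t : Set ι, Good s → Good t → Good (s ∩ t) → Good (s ∪ t))
    (hU : ∀ x ∈ X, ∀ᶠ y in 𝓝 x, ∀ i, y ∈ C i → x ∈ C i)
    (f : Vx →ₗ[ℝ] ℝ) (hf : Continuous f) (K : Set Vx) (hKX : K ⊆ X) (hK : IsCompact K)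
    (hc : Convex ℝ K) (hne : K.Nonempty)
    (hlev : ∀ t, (K ∩ {x | f x = t}).Nonempty →
      Good {i | (K ∩ {x | f x = t} ∩ C i).Nonempty}) :
    Good {i | (K ∩ C i).Nonempty} := by
  obtain ⟨x₀, hx₀, hm⟩ := hK.exists_isMinOn hne hf.continuousOn
  obtain ⟨x₁, hx₁, hM⟩ := hK.exists_isMaxOn hne hf.continuousOn
  have mid : ∀ S : Set Vx, Convex ℝ S → ∀ y ∈ S, ∀ z ∈ S, ∀ b, f y ≤ b → b ≤ f z →
      ∃ w ∈ S, f w = b := fun S hS y hy z hz b h1 h2 =>
    (hS.linear_image f).ordConnected.out ⟨y, hy, rfl⟩ ⟨z, hz, rfl⟩ ⟨h1, h2⟩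
  have hlev' : ∀ t, f x₀ ≤ t → t ≤ f x₁ → Good {i | (K ∩ {x | f x = t} ∩ C i).Nonempty} :=
    fun t h1 h2 => hlev t (mid K hc x₀ hx₀ x₁ hx₁ t h1 h2)
  have thin : ∀ t, ∃ d > (0 : ℝ), ∀ y ∈ K, |f y - t| < d → ∀ i, y ∈ C i →
      (K ∩ {x | f x = t} ∩ C i).Nonempty := by
    intro t
    let U : Set Vx := ⋃ x ∈ K ∩ {x | f x = t}, interior {y | ∀ i, y ∈ C i → x ∈ C i}
    have hUo : IsOpen U := isOpen_biUnion fun _ _ => isOpen_interior
    have h1 : IsClosed (f '' (K \ U)) := ((hK.diff hUo).image hf).isClosed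
    have h2 : t ∈ (f '' (K \ U))ᶜ := by
      rintro ⟨x, ⟨hx, hx'⟩, hxt⟩
      exact hx' (mem_biUnion (t := fun x => interior {y | ∀ i, y ∈ C i → x ∈ C i}) ⟨hx, hxt⟩
        (mem_interior_iff_mem_nhds.2 (hU x (hKX hx))))
    obtain ⟨d, hd, hb⟩ := Metric.isOpen_iff.1 h1.isOpen_compl t h2
    refine ⟨d, hd, fun y hy hyd i hi => ?_⟩
    have h3 : y ∈ U := by
      by_contra h
      exact hb (show f y ∈ Metric.ball t d from hyd) ⟨y, ⟨hy, h⟩, rfl⟩
    obtain ⟨x, hx, hxy⟩ := mem_iUnion₂.1 h3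
    exact ⟨x, hx, interior_subset hxy i hi⟩
  let s : Set ℝ := {b | f x₀ ≤ b ∧ b ≤ f x₁ ∧ Good {i | (K ∩ {x | f x ≤ b} ∩ C i).Nonempty}}
  have hs0 : f x₀ ∈ s := by
    refine ⟨le_rfl, hm hx₁, ?_⟩
    have : K ∩ {x | f x ≤ f x₀} = K ∩ {x | f x = f x₀} := by
      ext x
      exact ⟨fun h => ⟨h.1, le_antisymm h.2 (hm h.1)⟩, fun h => ⟨h.1, le_of_eq h.2⟩⟩
    rw [this]
    exact hlev' _ le_rfl (hm hx₁)
  have hbd : BddAbove s := ⟨f x₁, fun b hb => hb.2.1⟩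
  have hc1 : f x₀ ≤ sSup s := le_csSup hbd hs0
  have hc2 : sSup s ≤ f x₁ := csSup_le ⟨_, hs0⟩ fun b hb => hb.2.1
  obtain ⟨d, hd, hth⟩ := thin (sSup s)
  obtain ⟨b, hb, hbd'⟩ := exists_lt_of_lt_csSup ⟨_, hs0⟩ (show sSup s - d < sSup s by linarith)
  have hbc : b ≤ sSup s := le_csSup hbd hb
  have key : ∀ b', sSup s ≤ b' → b' < sSup s + d →
      Good {i | (K ∩ {x | f x ≤ b'} ∩ C i).Nonempty} := by
    intro b' h1 h2
    have e1 : {i | (K ∩ {x | f x ≤ b'} ∩ C i).Nonempty} =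
        {i | (K ∩ {x | f x ≤ b} ∩ C i).Nonempty} ∪
          {i | (K ∩ {x | f x = sSup s} ∩ C i).Nonempty} := by
      ext i
      constructor
      · rintro ⟨y, ⟨hy, hy1⟩, hy2⟩
        by_cases h : f y ≤ b
        · exact Or.inl ⟨y, ⟨hy, h⟩, hy2⟩
        · have hy1' : f y ≤ b' := hy1
          exact Or.inr (hth y hy (abs_lt.2 ⟨by linarith [not_le.1 h], by linarith⟩) i hy2)
      · rintro (⟨y, ⟨hy, hy1⟩, hy2⟩ | ⟨y, ⟨hy, hy1⟩, hy2⟩)
        · exact ⟨y, ⟨hy, le_trans hy1 (hbc.trans h1)⟩, hy2⟩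
        · exact ⟨y, ⟨hy, (le_of_eq hy1).trans h1⟩, hy2⟩
    have e2 : {i | (K ∩ {x | f x ≤ b} ∩ C i).Nonempty} ∩
        {i | (K ∩ {x | f x = sSup s} ∩ C i).Nonempty} =
        {i | (K ∩ {x | f x = b} ∩ C i).Nonempty} := by
      ext i
      constructor
      · rintro ⟨⟨y, ⟨hy, hy1⟩, hy2⟩, ⟨z, ⟨hz, hz1⟩, hz2⟩⟩
        obtain ⟨w, hw, hwb⟩ := mid (K ∩ C i) (hc.inter (hC i)) y ⟨hy, hy2⟩ z ⟨hz, hz2⟩ b hy1
          (hbc.trans (le_of_eq hz1.symm))
        exact ⟨w, ⟨hw.1, hwb⟩, hw.2⟩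
      · rintro ⟨y, ⟨hy, hy1⟩, hy2⟩
        have hy1' : f y = b := hy1
        exact ⟨⟨y, ⟨hy, le_of_eq hy1⟩, hy2⟩,
          hth y hy (abs_lt.2 ⟨by linarith, by linarith⟩) i hy2⟩
    rw [e1]
    refine hG _ _ hb.2.2 (hlev' _ hc1 hc2) ?_
    rw [e2]
    exact hlev' _ hb.1 hb.2.1
  have h1 : sSup s = f x₁ := by
    by_contra hne'
    have hlt : sSup s < f x₁ := lt_of_le_of_ne hc2 hne'
    have h2 : sSup s < min (f x₁) (sSup s + d / 2) := lt_min hlt (by linarith)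
    have h3 : min (f x₁) (sSup s + d / 2) ∈ s :=
      ⟨hc1.trans h2.le, min_le_left _ _,
        key _ h2.le ((min_le_right _ _).trans_lt (by linarith))⟩
    exact absurd (le_csSup hbd h3) (not_le.2 h2)
  have h2 := key (f x₁) h1.le (by linarith)
  have h3 : K ∩ {x | f x ≤ f x₁} = K := inter_eq_left.2 fun x hx => hM hx
  rwa [h3] at h2

/-- a coordinate as a linear form -/
def co (p : Fin 3 × Fin 3) : Vx →ₗ[ℝ] ℝ where
  toFun x := x p.1 p.2
  map_add' _ _ := rfl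
  map_smul' _ _ := rfl

theorem thm_nerve : S_nerve := by
  intro ι C Good X hC hG hX hU
  have main : ∀ s : Finset (Fin 3 × Fin 3), ∀ K : Set Vx, K ⊆ X → IsCompact K → Convex ℝ K →
      K.Nonempty → (∀ p ∉ s, ∀ x ∈ K, ∀ y ∈ K, co p x = co p y) →
      Good {i | (K ∩ C i).Nonempty} := by
    intro s
    induction s using Finset.induction_on with
    | empty =>
      rintro K hKX - - ⟨x, hx⟩ h
      have : {i | (K ∩ C i).Nonempty} = {i | x ∈ C i} := by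
        ext i
        constructor
        · rintro ⟨y, hy, hy'⟩
          have : y = x := Matrix.ext fun a b => h (a, b) (Finset.notMem_empty _) y hy x hx
          exact this ▸ hy'
        · exact fun hi => ⟨x, hx, hi⟩
      rw [this]
      exact hX x (hKX hx)
    | insert p s _ ih =>
      intro K hKX hK hc hne h
      have hf : Continuous (co p) := continuous_id.matrix_elem p.1 p.2
      refine step C Good X hC hG hU (co p) hf K hKX hK hc hne fun t ht => ?_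
      refine ih _ (inter_subset_left.trans hKX)
        (hK.inter_right (isClosed_eq hf continuous_const))
        (hc.inter (convex_hyperplane (co p).isLinear t)) ht fun p' hp' x hx y hy => ?_
      by_cases e : p' = p
      · rw [e]
        exact hx.2.trans hy.2.symm
      · exact h p' (by simp [e, hp']) x hx.1 y hy.1
  exact fun K h1 h2 h3 h4 => main Finset.univ K h1 h2 h3 h4 fun p hp => absurd (Finset.mem_univ p) hp

end Pool.Agent.H325Z.MP
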